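import Pool.Agent.Helper66_DE.Statements

set_option autoImplicit false

open CategoryTheory CategoryTheory.Limits CategoryTheory.Pretriangulated
  CategoryTheory.Triangulated DerivedCategory CategoryTheory.Abelian

noncomputable section

namespace Pool.Agent.H66DE.H57

attribute [local instance] HasDerivedCategory.standard

section Eff

variable {C : Type 1} [Category.{0} C] [Abelian C]

/-- core of the effaceability: morphisms `X → Y[n]`, `n > 0`, are killed by an epimorphism. -/
theorem eff_core (X Y : C) (n : ℤ) (hn : n ≠ 0)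
    (f : Q.obj ((CochainComplex.singleFunctor C 0).obj X) ⟶
      Q.obj ((CochainComplex.singleFunctor C n).obj Y)) :
    ∃ (G : C) (q : G ⟶ X), Epi q ∧ Q.map ((CochainComplex.singleFunctor C 0).map q) ≫ f = 0 := by
  obtain ⟨K, hK, s, hs, g, hf⟩ := right_fac_of_isStrictlyLE f 0
  have hd : ∀ k : ℤ, (ComplexShape.up ℤ).Rel 0 k → 𝟙 (K.X 0) ≫ K.d 0 k = 0 := by
    intro k hk
    simp only [ComplexShape.up_Rel] at hk
    exact (K.isZero_of_isStrictlyLE 0 k (by omega)).eq_of_tgt _ _
  let j : (CochainComplex.singleFunctor C 0).obj (K.X 0) ⟶ K :=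
    HomologicalComplex.mkHomFromSingle (𝟙 (K.X 0)) hd
  have hjf : j.f 0 = (HomologicalComplex.singleObjXSelf (ComplexShape.up ℤ) 0 (K.X 0)).hom := by
    change (HomologicalComplex.mkHomFromSingle (𝟙 (K.X 0)) hd).f 0 = _
    rw [HomologicalComplex.mkHomFromSingle_f, Category.comp_id]
  obtain ⟨q, hq⟩ : ∃ q : K.X 0 ⟶ X, (CochainComplex.singleFunctor C 0).map q = j ≫ s := by
    obtain ⟨q, hq⟩ := (HomologicalComplex.single C (ComplexShape.up ℤ) 0).map_surjective (j ≫ s)
    exact ⟨q, hq⟩
  refine ⟨K.X 0, q, ?_, ?_⟩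
  · refine Preadditive.epi_of_cancel_zero _ (fun {Z} r hr => ?_)
    have h0 : s ≫ (CochainComplex.singleFunctor C 0).map r = 0 := by
      have h1 : j ≫ s ≫ (CochainComplex.singleFunctor C 0).map r = 0 := by
        rw [← Category.assoc, ← hq, ← Functor.map_comp, hr, Functor.map_zero]
      ext i
      by_cases hi : i = 0
      · subst hi
        have h2 := congrArg (fun φ => φ.f 0) h1
        simp only [HomologicalComplex.comp_f, HomologicalComplex.zero_f] at h2 ⊢
        rw [hjf] at h2
        exact (cancel_epi (HomologicalComplex.singleObjXSelf (ComplexShape.up ℤ) 0 (K.X 0)).hom).1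
          (h2.trans comp_zero.symm)
      · exact (HomologicalComplex.isZero_single_obj_X (ComplexShape.up ℤ) 0 Z i hi).eq_of_tgt _ _
    have h3 : Q.map ((CochainComplex.singleFunctor C 0).map r) = 0 := by
      rw [← cancel_epi (Q.map s), comp_zero, ← Functor.map_comp, h0, Functor.map_zero]
    have h4 : (singleFunctor C 0).map r = 0 := h3
    exact (singleFunctor C 0).map_injective (by rw [h4, Functor.map_zero])
  · have hjg : j ≫ g = 0 := by
      ext i
      by_cases hi : i = 0
      · subst hi
        exact (HomologicalComplex.isZero_single_obj_X (ComplexShape.up ℤ) n Y 0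
          (fun h => hn h.symm)).eq_of_tgt _ _
      · exact (HomologicalComplex.isZero_single_obj_X (ComplexShape.up ℤ) 0 (K.X 0) i hi).eq_of_src
          _ _
    rw [hq, Functor.map_comp, Category.assoc, hf, IsIso.hom_inv_id_assoc, ← Functor.map_comp, hjg,
      Functor.map_zero]

theorem eff [HasExt.{1} C] {X Y : C} {n : ℕ} (hn : n ≠ 0) (ξ : Ext.{1} X Y n) :
    ∃ (G : C) (q : G ⟶ X), Epi q ∧ (Ext.mk₀ q).comp ξ (zero_add n) = 0 := by
  let e : ((singleFunctor C 0).obj Y)⟦(n : ℤ)⟧ ≅ (singleFunctor C (-n)).obj Y :=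
    ((singleFunctors C).shiftIso (n : ℤ) (-n) 0 (by omega)).app Y
  obtain ⟨G, q, hq, h⟩ := eff_core X Y (-(n : ℤ)) (by omega) (ξ.hom ≫ e.hom)
  refine ⟨G, q, hq, ?_⟩
  ext
  rw [Ext.comp_hom, Ext.mk₀_hom, ShiftedHom.mk₀_comp, Ext.zero_hom]
  rw [← cancel_mono e.hom, zero_comp, Category.assoc]
  exact h

end Eff

end Pool.Agent.H66DE.H57

namespace Pool.Agent.H66DE

open H57

theorem compare : CompareStatement := by
  intro C D _ _ _ _ _ _ F _ _ _ _ _ hstar
  have key : ∀ n : ℕ, ∀ X Y : C, Function.Bijective (F.mapExtAddHom X Y n) := by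
    intro n
    induction n with
    | zero =>
      intro X Y
      simpa [Ext.mapExactFunctor₀] using ⟨F.map_injective, F.map_surjective⟩
    | succ n ih =>
      intro X Y
      constructor
      · rw [injective_iff_map_eq_zero]
        intro ζ hζ
        obtain ⟨G, q, hq, h⟩ := eff (Nat.succ_ne_zero n) ζ
        let S := ShortComplex.mk _ _ (kernel.condition q)
        have hS : S.ShortExact := { exact := ShortComplex.exact_kernel q }
        obtain ⟨η, rfl⟩ := Ext.contravariant_sequence_exact₃ hS Y ζ h (add_comm 1 n)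
        have h0 := Ext.mapExactFunctor_comp F hS.extClass η (add_comm 1 n)
        rw [Ext.mapExactFunctor_extClass] at h0
        have h1 := h0.symm.trans hζ
        obtain ⟨θ, hθ⟩ := Ext.contravariant_sequence_exact₁ (hS.map F) (F.obj Y) _ (add_comm 1 n) h1
        obtain ⟨θ', rfl⟩ := (ih _ _).surjective θ
        have h2 : (Ext.mk₀ S.f).comp θ' (zero_add n) = η := by
          apply (ih _ _).injective
          have h4 := Ext.mapExactFunctor_comp F (Ext.mk₀ S.f) θ' (zero_add n)
          rw [Ext.mapExactFunctor_mk₀] at h4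
          exact h4.trans hθ
        rw [← h2, hS.extClass_comp_assoc]
      · intro ξ
        obtain ⟨G, q, hq, h⟩ := eff (Nat.succ_ne_zero n) ξ
        obtain ⟨E', i, hi⟩ := hstar X G q hq
        obtain ⟨p, hp⟩ := F.map_surjective (i ≫ q)
        have hpe : Epi p := by
          have : Epi (F.map p) := by rw [hp]; exact hi
          exact F.epi_of_epi_map this
        let S := ShortComplex.mk _ _ (kernel.condition p)
        have hS : S.ShortExact := { exact := ShortComplex.exact_kernel p }
        have h3 : (Ext.mk₀ (S.map F).g).comp ξ (zero_add (n + 1)) = 0 := by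
          change (Ext.mk₀ (F.map p)).comp ξ (zero_add (n + 1)) = 0
          rw [hp, ← Ext.mk₀_comp_mk₀_assoc, h, Ext.comp_zero]
        obtain ⟨η, rfl⟩ := Ext.contravariant_sequence_exact₃ (hS.map F) (F.obj Y) ξ h3 (add_comm 1 n)
        obtain ⟨η', rfl⟩ := (ih _ _).surjective η
        refine ⟨hS.extClass.comp η' (add_comm 1 n), ?_⟩
        have h4 := Ext.mapExactFunctor_comp F hS.extClass η' (add_comm 1 n)
        rw [Ext.mapExactFunctor_extClass] at h4
        exact h4
  intro N hN n hn X Y
  have := hN n hn (F.obj X) (F.obj Y)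
  exact ⟨fun a b => (key n X Y).injective (Subsingleton.elim _ _)⟩

end Pool.Agent.H66DE
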