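import Pool.Agent.Helper66_DE.Statements

set_option autoImplicit false

open CategoryTheory CategoryTheory.Limits CategoryTheory.Pretriangulated
  CategoryTheory.Triangulated DerivedCategory

noncomputable section

namespace Pool.Agent.H66DE.H57

attribute [local instance] HasDerivedCategory.standard

variable {C : Type 1} [Category.{0} C] [Abelian C]

/-- the groups `Hom(A, B[n])` vanish for large `n` -/
def EvVan (A B : DerivedCategory C) : Prop :=
  ∃ n₀ : ℤ, ∀ n : ℤ, n₀ ≤ n → ∀ f : A ⟶ B⟦n⟧, f = 0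

theorem EvVan.of_iso_left {A A' B : DerivedCategory C} (e : A ≅ A') (h : EvVan A' B) :
    EvVan A B := by
  obtain ⟨n₀, h⟩ := h
  refine ⟨n₀, fun n hn f => ?_⟩
  have := h n hn (e.inv ≫ f)
  rw [← cancel_epi e.inv, this, comp_zero]

theorem EvVan.of_iso_right {A B B' : DerivedCategory C} (e : B ≅ B') (h : EvVan A B') :
    EvVan A B := by
  obtain ⟨n₀, h⟩ := h
  refine ⟨n₀, fun n hn f => ?_⟩
  have := h n hn (f ≫ e.hom⟦n⟧')
  rw [← cancel_mono (e.hom⟦n⟧'), this, zero_comp]

theorem EvVan.tri_left {B : DerivedCategory C} (T : Triangle (DerivedCategory C))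
    (hT : T ∈ distTriang _) (h₁ : EvVan T.obj₁ B) (h₃ : EvVan T.obj₃ B) : EvVan T.obj₂ B := by
  obtain ⟨n₁, h₁⟩ := h₁
  obtain ⟨n₃, h₃⟩ := h₃
  refine ⟨max n₁ n₃, fun n hn f => ?_⟩
  obtain ⟨f', hf'⟩ := Triangle.yoneda_exact₂ _ hT f (h₁ n (le_trans (le_max_left _ _) hn) _)
  rw [hf', h₃ n (le_trans (le_max_right _ _) hn) f', comp_zero]

theorem EvVan.tri_right {A : DerivedCategory C} (T : Triangle (DerivedCategory C))
    (hT : T ∈ distTriang _) (h₁ : EvVan A T.obj₁) (h₃ : EvVan A T.obj₃) : EvVan A T.obj₂ := by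
  obtain ⟨n₁, h₁⟩ := h₁
  obtain ⟨n₃, h₃⟩ := h₃
  refine ⟨max n₁ n₃, fun n hn f => ?_⟩
  obtain ⟨f', hf'⟩ := Triangle.coyoneda_exact₂ _ (Triangle.shift_distinguished T hT n) f
    (h₃ n (le_trans (le_max_right _ _) hn) _)
  have h0 : f' = 0 := h₁ n (le_trans (le_max_left _ _) hn) f'
  rw [hf', h0, zero_comp]
  rfl

theorem EvVan.shift_right {A B : DerivedCategory C} (h : EvVan A B) (m : ℤ) :
    EvVan A (B⟦m⟧) := by
  obtain ⟨n₀, h⟩ := h
  refine ⟨n₀ - m, fun n hn f => ?_⟩
  have := h (m + n) (by omega) (f ≫ (shiftFunctorAdd (DerivedCategory C) m n).inv.app B)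
  rw [← cancel_mono ((shiftFunctorAdd (DerivedCategory C) m n).inv.app B), this, zero_comp]

theorem EvVan.shift_left {A B : DerivedCategory C} (h : EvVan A B) (m : ℤ) :
    EvVan (A⟦m⟧) B := by
  obtain ⟨n₀, h⟩ := h
  refine ⟨n₀ + m, fun n hn f => ?_⟩
  have h1 := h (n - m) (by omega)
  -- `B⟦n⟧ ≅ B⟦n - m⟧⟦m⟧`
  let e : B⟦n⟧ ≅ (B⟦n - m⟧)⟦m⟧ := (shiftFunctorAdd' (DerivedCategory C) (n - m) m n (by omega)).app B
  obtain ⟨g, hg⟩ := (shiftFunctor (DerivedCategory C) m).map_surjective (f ≫ e.hom)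
  rw [h1 g, Functor.map_zero] at hg
  rw [← cancel_mono e.hom, ← hg, zero_comp]

theorem EvVan.zero_left {A B : DerivedCategory C} (h : IsZero A) : EvVan A B :=
  ⟨0, fun _ _ f => h.eq_of_src f 0⟩

/-- every bounded object is obtained from the shifts of single objects by extensions -/
theorem devissage (P : DerivedCategory C → Prop) (hiso : ∀ A A', (A ≅ A') → P A' → P A)
    (hsingle : ∀ (p : ℤ) (X : C), P ((singleFunctor C p).obj X))
    (htri : ∀ T : Triangle (DerivedCategory C), T ∈ distTriang _ → P T.obj₁ → P T.obj₃ → P T.obj₂) :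
    ∀ (k : ℕ) (a : ℤ) (A : DerivedCategory C), A.IsGE a → A.IsLE (a + k) → P A := by
  intro k
  induction k with
  | zero =>
    intro a A h1 h2
    have h2' : A.IsLE a := by simpa using h2
    obtain ⟨Y, ⟨e⟩⟩ := exists_iso_singleFunctor_obj_of_isGE_of_isLE A a
    exact hiso _ _ e (hsingle a Y)
  | succ k ih =>
    intro a A h1 h2
    set b : ℤ := a + (k : ℤ) + 1 with hb
    have h2' : A.IsLE b := by
      have : (a + ((k + 1 : ℕ) : ℤ)) = b := by push_cast; omega
      rw [this] at h2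
      exact h2
    have ht := TStructure.t.triangleLTGE_distinguished b A
    refine htri _ ht ?_ ?_
    · refine ih a _ ?_ ?_
      · change TStructure.t.IsGE ((TStructure.t.truncLT b).obj A) a
        infer_instance
      · change TStructure.t.IsLE ((TStructure.t.truncLT b).obj A) (a + (k : ℤ))
        exact TStructure.t.isLE_truncLT_obj A b (a + k) (by omega)
    · change P ((TStructure.t.truncGE b).obj A)
      have h3 : TStructure.t.IsGE ((TStructure.t.truncGE b).obj A) b := inferInstance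
      have h4 : TStructure.t.IsLE ((TStructure.t.truncGE b).obj A) b := inferInstance
      obtain ⟨Y, ⟨e⟩⟩ := exists_iso_singleFunctor_obj_of_isGE_of_isLE
        ((TStructure.t.truncGE b).obj A) b
      exact hiso _ _ e (hsingle b Y)

theorem devissage' (P : DerivedCategory C → Prop) (hiso : ∀ A A', (A ≅ A') → P A' → P A)
    (hsingle : ∀ (p : ℤ) (X : C), P ((singleFunctor C p).obj X))
    (htri : ∀ T : Triangle (DerivedCategory C), T ∈ distTriang _ → P T.obj₁ → P T.obj₃ → P T.obj₂)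
    (A : DerivedCategory C) (hA : TStructure.t.bounded A) : P A := by
  obtain ⟨⟨a, h1⟩, ⟨b, h2⟩⟩ := hA
  have h2' : A.IsLE (a + ((b - a).toNat : ℤ)) := by
    exact TStructure.t.isLE_of_le A b _ (by omega)
  exact devissage P hiso hsingle htri _ a A h1 h2'

theorem evVan_single [HasExt.{1} C] (N : ℕ)
    (hN : ∀ n, N ≤ n → ∀ X Y : C, Subsingleton (Abelian.Ext.{1} X Y n)) (p q : ℤ) (X Y : C) :
    EvVan ((singleFunctor C p).obj X) ((singleFunctor C q).obj Y) := by
  have h0 : EvVan ((singleFunctor C 0).obj X) ((singleFunctor C 0).obj Y) := by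
    refine ⟨N, fun n hn f => ?_⟩
    obtain ⟨m, rfl⟩ : ∃ m : ℕ, n = m := ⟨n.toNat, by omega⟩
    have hs := hN m (by exact_mod_cast hn) X Y
    have : (Abelian.Ext.homEquiv (C := C)).symm f = (Abelian.Ext.homEquiv (C := C)).symm 0 :=
      Subsingleton.elim _ _
    exact (Abelian.Ext.homEquiv (C := C)).symm.injective this
  have e1 : (singleFunctor C p).obj X ≅ ((singleFunctor C 0).obj X)⟦(-p)⟧ :=
    (((singleFunctors C).shiftIso (-p) p 0 (by omega)).app X).symm
  have e2 : (singleFunctor C q).obj Y ≅ ((singleFunctor C 0).obj Y)⟦(-q)⟧ :=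
    (((singleFunctors C).shiftIso (-q) q 0 (by omega)).app Y).symm
  exact ((h0.shift_left (-p)).shift_right (-q)).of_iso_left e1 |>.of_iso_right e2

theorem evVan_bounded [HasExt.{1} C] (N : ℕ)
    (hN : ∀ n, N ≤ n → ∀ X Y : C, Subsingleton (Abelian.Ext.{1} X Y n)) (A B : DerivedCategory C)
    (hA : TStructure.t.bounded A) (hB : TStructure.t.bounded B) : EvVan A B := by
  refine devissage' (fun A => EvVan A B) (fun _ _ e h => h.of_iso_left e) ?_
    (fun T hT h₁ h₃ => EvVan.tri_left T hT h₁ h₃) A hA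
  intro p X
  refine devissage' (fun B => EvVan ((singleFunctor C p).obj X) B)
    (fun _ _ e h => h.of_iso_right e) ?_ (fun T hT h₁ h₃ => EvVan.tri_right T hT h₁ h₃) B hB
  intro q Y
  exact evVan_single N hN p q X Y

theorem bounded_single (X : C) : TStructure.t.bounded ((singleFunctor C 0).obj X) :=
  ⟨⟨0, inferInstance⟩, ⟨0, inferInstance⟩⟩

end Pool.Agent.H66DE.H57

namespace Pool.Agent.H66DE

open H57

theorem nonEquiv : NonEquivStatement := by
  intro C D _ _ _ _ _ _ h1 h2 h3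
  obtain ⟨N, hN⟩ := h1
  obtain ⟨X, Y, hXY⟩ := h2
  obtain ⟨F, hcomm, -⟩ := h3
  letI : HasDerivedCategory.{1} C := HasDerivedCategory.standard C
  letI : HasDerivedCategory.{1} D := HasDerivedCategory.standard D
  let X' : DerivedCategory.Bounded D := ⟨(singleFunctor D 0).obj X, bounded_single X⟩
  let Y' : DerivedCategory.Bounded D := ⟨(singleFunctor D 0).obj Y, bounded_single Y⟩
  let A := F.inverse.obj X'
  let B := F.inverse.obj Y'
  obtain ⟨n₀, hn₀⟩ := evVan_bounded N hN A.obj B.obj A.property B.property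
  obtain ⟨n, hn, hne⟩ := hXY n₀.toNat
  apply hne
  have hn' : n₀ ≤ (n : ℤ) := by omega
  -- vanishing in the bounded derived category of `C`
  have v1 : ∀ f : A ⟶ B⟦(n : ℤ)⟧, f = 0 := by
    intro f
    apply (DerivedCategory.Bounded.ι (C := C)).map_injective
    rw [← cancel_mono (((DerivedCategory.Bounded.ι (C := C)).commShiftIso (n : ℤ)).hom.app B)]
    rw [hn₀ n hn' (_ ≫ _)]
    simp
  -- vanishing in the bounded derived category of `D`
  have v2 : ∀ f : X' ⟶ Y'⟦(n : ℤ)⟧, f = 0 := by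
    intro f
    let eX : F.functor.obj A ≅ X' := F.counitIso.app X'
    let eY : F.functor.obj B ≅ Y' := F.counitIso.app Y'
    let g : F.functor.obj A ⟶ F.functor.obj (B⟦(n : ℤ)⟧) :=
      eX.hom ≫ f ≫ eY.inv⟦(n : ℤ)⟧' ≫ (F.functor.commShiftIso (n : ℤ)).inv.app B
    obtain ⟨g', hg'⟩ := F.functor.map_surjective g
    have hg : g = 0 := by rw [← hg', v1 g', Functor.map_zero]
    have : f ≫ (eY.inv⟦(n : ℤ)⟧' ≫ (F.functor.commShiftIso (n : ℤ)).inv.app B) = 0 := by
      rw [← cancel_epi eX.hom, comp_zero]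
      exact hg
    rw [← cancel_mono (eY.inv⟦(n : ℤ)⟧' ≫ (F.functor.commShiftIso (n : ℤ)).inv.app B), this,
      zero_comp]
  have v3 : ∀ f : (singleFunctor D 0).obj X ⟶ ((singleFunctor D 0).obj Y)⟦(n : ℤ)⟧, f = 0 := by
    intro f
    obtain ⟨f', hf'⟩ := (DerivedCategory.Bounded.ι (C := D)).map_surjective
      (X := X') (Y := Y'⟦(n : ℤ)⟧)
      (f ≫ ((DerivedCategory.Bounded.ι (C := D)).commShiftIso (n : ℤ)).inv.app Y')
    rw [← cancel_mono (((DerivedCategory.Bounded.ι (C := D)).commShiftIso (n : ℤ)).inv.app Y')]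
    rw [zero_comp, ← hf', v2 f', Functor.map_zero]
  refine ⟨fun a b => ?_⟩
  apply (Abelian.Ext.homEquiv (C := D)).injective
  rw [v3 (Abelian.Ext.homEquiv a), v3 (Abelian.Ext.homEquiv b)]

end Pool.Agent.H66DE
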