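import Pool.Agent.Helper66_DE.Statements

set_option autoImplicit false

open CategoryTheory CategoryTheory.Limits RingTheory.Sequence

noncomputable section

namespace Pool.Agent.H66DE.H57

theorem fR_monic : fR.Monic := Polynomial.monic_X_pow_add_C gS (by norm_num)

instance R0_free : Module.Free S R0 := Module.Free.of_basis (AdjoinRoot.powerBasis' fR_monic).basis

instance R0_finite : Module.Finite S R0 := Module.Finite.of_basis (AdjoinRoot.powerBasis' fR_monic).basis

instance R0_noeth : IsNoetherianRing R0 := by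
  have : IsNoetherian S R0 := inferInstance
  exact isNoetherianRing_iff.2 (isNoetherian_of_tower S this)

instance R0_integral : Algebra.IsIntegral S R0 := Algebra.IsIntegral.of_finite S R0

/-- the specialization `X_j ↦ c_j` for `j < k` -/
def spec (c : Fin 3 → ℂ) (k : ℕ) : S →ₐ[ℂ] S :=
  MvPolynomial.aeval (fun j : Fin 3 => if (j : ℕ) < k then MvPolynomial.C (c j) else MvPolynomial.X j)

theorem spec_X_lt (c : Fin 3 → ℂ) (k : ℕ) (j : Fin 3) (h : (j : ℕ) < k) :
    spec c k (MvPolynomial.X j) = MvPolynomial.C (c j) := by simp [spec, h]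

theorem spec_X_ge (c : Fin 3 → ℂ) (k : ℕ) (j : Fin 3) (h : ¬ (j : ℕ) < k) :
    spec c k (MvPolynomial.X j) = MvPolynomial.X j := by simp [spec, h]

/-- the prime ideal `(X_j - c_j, j < k)` -/
def Pk (c : Fin 3 → ℂ) (k : ℕ) : Ideal S := RingHom.ker (spec c k)

instance (c : Fin 3 → ℂ) (k : ℕ) : (Pk c k).IsPrime := RingHom.ker_isPrime _

theorem mem_Pk (c : Fin 3 → ℂ) (k : ℕ) (f : S) : f ∈ Pk c k ↔ spec c k f = 0 := Iff.rfl

theorem gen_mem_Pk (c : Fin 3 → ℂ) (k : ℕ) (j : Fin 3) (h : (j : ℕ) < k) :
    (MvPolynomial.X j - MvPolynomial.C (c j) : S) ∈ Pk c k := by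
  rw [mem_Pk, map_sub, spec_X_lt c k j h]
  simp [spec]

theorem gen_not_mem_Pk (c : Fin 3 → ℂ) (k : ℕ) (j : Fin 3) (h : ¬ (j : ℕ) < k) :
    (MvPolynomial.X j - MvPolynomial.C (c j) : S) ∉ Pk c k := by
  rw [mem_Pk, map_sub, spec_X_ge c k j h]
  intro h0
  have h1 : spec c k (MvPolynomial.C (c j)) = MvPolynomial.C (c j) := by simp [spec]
  rw [h1, sub_eq_zero] at h0
  have := congrArg MvPolynomial.totalDegree h0
  simp at this

theorem Pk_eq_span (c : Fin 3 → ℂ) (k : ℕ) :
    Pk c k = Ideal.span {f : S | ∃ j : Fin 3, (j : ℕ) < k ∧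
      f = MvPolynomial.X j - MvPolynomial.C (c j)} := by
  apply le_antisymm
  · intro f hf
    have key : ∀ f : S, f - spec c k f ∈ Ideal.span {f : S | ∃ j : Fin 3, (j : ℕ) < k ∧
      f = MvPolynomial.X j - MvPolynomial.C (c j)} := by
      intro f
      induction f using MvPolynomial.induction_on with
      | C a => simp [spec]
      | add p q hp hq =>
        rw [map_add]
        have : p + q - (spec c k p + spec c k q) = (p - spec c k p) + (q - spec c k q) := by ring
        rw [this]
        exact add_mem hp hq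
      | mul_X p j hp =>
        rw [map_mul]
        have : p * MvPolynomial.X j - spec c k p * spec c k (MvPolynomial.X j)
          = (p - spec c k p) * MvPolynomial.X j
            + spec c k p * (MvPolynomial.X j - spec c k (MvPolynomial.X j)) := by ring
        rw [this]
        refine add_mem (Ideal.mul_mem_right _ _ hp) (Ideal.mul_mem_left _ _ ?_)
        by_cases h : (j : ℕ) < k
        · rw [spec_X_lt c k j h]
          exact Ideal.subset_span ⟨j, h, rfl⟩
        · rw [spec_X_ge c k j h, sub_self]
          exact zero_mem _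
    have h0 := key f
    rw [(mem_Pk c k f).1 hf, sub_zero] at h0
    exact h0
  · rw [Ideal.span_le]
    rintro f ⟨j, hj, rfl⟩
    exact gen_mem_Pk c k j hj

theorem Pk_lt (c : Fin 3 → ℂ) (k : Fin 3) : Pk c k < Pk c (k + 1) := by
  refine lt_of_le_of_ne ?_ ?_
  · rw [Pk_eq_span c k, Ideal.span_le]
    rintro f ⟨j, hj, rfl⟩
    exact gen_mem_Pk c _ j (by omega)
  · intro h
    apply gen_not_mem_Pk c k k (lt_irrefl _)
    rw [h]
    exact gen_mem_Pk c _ k (Nat.lt_succ_self _)

theorem height_Pk (c : Fin 3 → ℂ) (k : ℕ) (hk : k ≤ 3) : (k : ℕ∞) ≤ (Pk c k).height := by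
  induction k with
  | zero => simp
  | succ k ih =>
    have h1 := Ideal.height_add_one_le_of_lt_of_isPrime (Pk_lt c ⟨k, by omega⟩)
    have h2 := ih (by omega)
    push_cast
    exact le_trans (by gcongr) h1

theorem Pk_three_le (c : Fin 3 → ℂ) (p : Ideal S)
    (h : ∀ j, (MvPolynomial.X j - MvPolynomial.C (c j) : S) ∈ p) : Pk c 3 ≤ p := by
  rw [Pk_eq_span, Ideal.span_le]
  rintro f ⟨j, -, rfl⟩
  exact h j

theorem exists_point (p : Ideal S) (hp : p.IsMaximal) :
    ∃ c : Fin 3 → ℂ, ∀ j, (MvPolynomial.X j - MvPolynomial.C (c j) : S) ∈ p := by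
  obtain ⟨c, hc⟩ := (MvPolynomial.isMaximal_iff_eq_vanishingIdeal_singleton (K := ℂ)).1 hp
  refine ⟨c, fun j => ?_⟩
  rw [hc, MvPolynomial.mem_vanishingIdeal_singleton_iff]
  simp

theorem height_three (m : Ideal R0) (hm : m.IsMaximal) : m.height = 3 := by
  have hp : (m.comap (algebraMap S R0)).IsMaximal :=
    Ideal.isMaximal_comap_of_isIntegral_of_isMaximal (R := S) m
  set p : Ideal S := m.comap (algebraMap S R0) with hpdef
  obtain ⟨c, hc⟩ := exists_point p hp
  have hover : m.LiesOver p := ⟨rfl⟩
  apply le_antisymm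
  · -- Krull
    let G : Finset R0 := Finset.univ.image fun j : Fin 3 =>
      algebraMap S R0 (MvPolynomial.X j - MvPolynomial.C (c j))
    have hG : m ∈ (Ideal.span (G : Set R0)).minimalPrimes := by
      refine ⟨⟨hm.isPrime, ?_⟩, ?_⟩
      · rw [Ideal.span_le]
        intro x hx
        simp only [G, Finset.coe_image, Finset.coe_univ, Set.image_univ, Set.mem_range] at hx
        obtain ⟨j, rfl⟩ := hx
        exact hc j
      · rintro q ⟨hq1, hq2⟩ hqm
        have hpq : p ≤ q.comap (algebraMap S R0) := by
          have h3 : Pk c 3 ≤ q.comap (algebraMap S R0) := by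
            apply Pk_three_le
            intro j
            apply hq2
            apply Ideal.subset_span
            simp only [G, Finset.coe_image, Finset.coe_univ, Set.image_univ, Set.mem_range]
            exact ⟨j, rfl⟩
          have h4 : Pk c 3 = p := by
            have hmax : (Pk c 3).IsMaximal := by
              have : Pk c 3 = MvPolynomial.vanishingIdeal ℂ {c} := by
                apply le_antisymm
                · apply Pk_three_le
                  intro j
                  rw [MvPolynomial.mem_vanishingIdeal_singleton_iff]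
                  simp
                · intro f hf
                  rw [MvPolynomial.mem_vanishingIdeal_singleton_iff] at hf
                  rw [mem_Pk]
                  have h5 : spec c 3 f = MvPolynomial.C (MvPolynomial.aeval c f) := by
                    have : spec c 3 = (Algebra.ofId ℂ S).comp (MvPolynomial.aeval c) := by
                      ext j
                      rw [spec_X_lt c 3 j j.2]
                      simp [Algebra.ofId_apply, MvPolynomial.algebraMap_eq]
                    rw [this]
                    rfl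
                  rw [h5, hf, map_zero]
              rw [this]
              exact (MvPolynomial.isMaximal_iff_eq_vanishingIdeal_singleton (K := ℂ)).2 ⟨c, rfl⟩
            exact hmax.eq_of_le hp.ne_top (Pk_three_le c p hc)
          rw [← h4]
          exact h3
        have hqmax : (q.comap (algebraMap S R0)).IsMaximal := by
          have : p = q.comap (algebraMap S R0) := hp.eq_of_le
            (hq1.comap (algebraMap S R0)).ne_top hpq
          rw [← this]
          exact hp
        have : q.IsMaximal := Ideal.isMaximal_of_isIntegral_of_isMaximal_comap (R := S) q hqmax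
        exact (this.eq_of_le hm.ne_top hqm).ge
    refine (Ideal.height_le_card_of_mem_minimalPrimes_span_finset hG).trans ?_
    have : G.card ≤ 3 := Finset.card_image_le.trans (by simp)
    exact_mod_cast this
  · have h1 : (3 : ℕ∞) ≤ p.height :=
      le_trans (height_Pk c 3 le_rfl) (Ideal.height_mono (Pk_three_le c p hc))
    have h2 := Ideal.height_eq_height_add_of_liesOver_of_hasGoingDown p m
    rw [h2]
    exact le_trans h1 le_self_add

end Pool.Agent.H66DE.H57

namespace Pool.Agent.H66DE

open H57

theorem rdim : RDimStatement := by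
  refine ⟨?_, height_three⟩
  have hnt : Nontrivial R0 := by
    have := R0_free
    refine AdjoinRoot.nontrivial fR ?_
    rw [show fR = Polynomial.X ^ 4 + Polynomial.C gS from rfl,
      Polynomial.degree_X_pow_add_C (by norm_num)]
    norm_num
  rw [← Ideal.sup_isMaximal_height_eq_ringKrullDim]
  have h : (⨆ (I : Ideal R0) (_ : I.IsMaximal), I.height) = 3 := by
    apply le_antisymm
    · exact iSup₂_le fun I hI => (height_three I hI).le
    · obtain ⟨m, hm⟩ := Ideal.exists_maximal R0
      exact (height_three m hm).ge.trans (le_iSup₂_of_le m hm le_rfl)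
  rw [h]
  rfl

namespace H57

theorem weaklyRegular (c : Fin 3 → ℂ) :
    IsWeaklyRegular S [(MvPolynomial.X 0 - MvPolynomial.C (c 0) : S),
      MvPolynomial.X 1 - MvPolynomial.C (c 1), MvPolynomial.X 2 - MvPolynomial.C (c 2)] := by
  have key : ∀ (k : ℕ) (j : Fin 3) (I : Ideal S), ¬ (j : ℕ) < k → I = Pk c k →
      IsSMulRegular (S ⧸ (I • ⊤ : Submodule S S))
        (MvPolynomial.X j - MvPolynomial.C (c j) : S) := by
    intro k j I hj hI
    rw [isSMulRegular_iff_right_eq_zero_of_smul]
    intro x hx
    obtain ⟨f, rfl⟩ := Submodule.Quotient.mk_surjective _ x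
    rw [← Submodule.Quotient.mk_smul, Submodule.Quotient.mk_eq_zero] at hx
    rw [Submodule.Quotient.mk_eq_zero]
    have hI' : (I • ⊤ : Submodule S S) = I := by
      rw [smul_eq_mul, Ideal.mul_top]
    rw [hI', hI] at hx ⊢
    exact ((inferInstance : (Pk c k).IsPrime).mem_or_mem hx).resolve_left (gen_not_mem_Pk c k j hj)
  constructor
  intro i hi
  simp only [List.length_cons, List.length_nil] at hi
  interval_cases i
  · refine key 0 0 _ (by simp) ?_
    rw [Pk_eq_span]
    simp
  · refine key 1 1 _ (by simp) ?_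
    rw [Pk_eq_span]
    simp only [List.take, Ideal.ofList_singleton]
    congr 1
    ext f
    simp only [Set.mem_singleton_iff, Set.mem_ofPred_eq]
    constructor
    · rintro rfl
      exact ⟨0, by simp, rfl⟩
    · rintro ⟨j, hj, rfl⟩
      have : j = 0 := by ext; simpa using hj
      rw [this]
  · refine key 2 2 _ (by simp) ?_
    rw [Pk_eq_span]
    simp only [List.take, Ideal.ofList]
    congr 1
    ext f
    simp only [List.mem_cons, List.not_mem_nil, or_false, Set.mem_ofPred_eq]
    constructor
    · rintro (rfl | rfl)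
      · exact ⟨0, by simp, rfl⟩
      · exact ⟨1, by simp, rfl⟩
    · rintro ⟨j, hj, rfl⟩
      fin_cases j
      · left; rfl
      · right; rfl
      · simp at hj

end H57

theorem rcm_aux (m : Ideal R0) (hm : m.IsMaximal) (rs : List R0) (hmem : ∀ r ∈ rs, r ∈ m)
    (hreg : IsWeaklyRegular R0 rs) : IsRegular R0 rs := by
  refine ⟨hreg, fun h => ?_⟩
  have h1 : Ideal.ofList rs ≤ m := by
    rw [Ideal.ofList, Ideal.span_le]
    exact fun r hr => hmem r hr
  have h3 : (Ideal.ofList rs • ⊤ : Submodule R0 R0) = Ideal.ofList rs := by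
    rw [smul_eq_mul, Ideal.mul_top]
  have h4 : (1 : R0) ∈ Ideal.ofList rs := by
    rw [← h3, ← h]
    exact Submodule.mem_top
  exact hm.ne_top ((Ideal.eq_top_iff_one m).2 (h1 h4))

theorem rcm : RCMStatement := by
  intro hht
  refine ⟨inferInstance, fun m hm i hi => ?_⟩
  rw [hht m hm] at hi
  have hi' : i < 3 := by exact_mod_cast hi
  have hp : (m.comap (algebraMap S R0)).IsMaximal :=
    Ideal.isMaximal_comap_of_isIntegral_of_isMaximal (R := S) m
  obtain ⟨c, hc⟩ := exists_point _ hp
  have hreg := (weaklyRegular c).of_flat (S := R0)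
  obtain ⟨rs, hrs⟩ : ∃ rs, rs = List.map (algebraMap S R0)
      [(MvPolynomial.X 0 - MvPolynomial.C (c 0) : S),
      MvPolynomial.X 1 - MvPolynomial.C (c 1), MvPolynomial.X 2 - MvPolynomial.C (c 2)] := ⟨_, rfl⟩
  rw [← hrs] at hreg
  have hlen : rs.length = 3 := by rw [hrs]; rfl
  have hmem : ∀ r ∈ rs, r ∈ m := by
    intro r hr
    simp only [hrs, List.map_cons, List.map_nil, List.mem_cons, List.not_mem_nil, or_false] at hr
    rcases hr with rfl | rfl | rfl
    · exact hc 0
    · exact hc 1
    · exact hc 2
  clear hrs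
  have hlt : m • (⊤ : Submodule R0 R0) < ⊤ := by
    have : (m • ⊤ : Submodule R0 R0) = m := by rw [smul_eq_mul, Ideal.mul_top]
    rw [this]
    exact lt_top_iff_ne_top.2 hm.ne_top
  have hreg' : IsRegular R0 rs := rcm_aux m hm rs hmem hreg
  have hsupp : Module.support R0 (ModuleCat.of R0 (R0 ⧸ m)) ⊆ PrimeSpectrum.zeroLocus m := by
    change Module.support R0 (R0 ⧸ m) ⊆ _
    rw [Module.support_eq_zeroLocus, Ideal.annihilator_quotient]
  exact ModuleCat.subsingleton_ext_of_exists_isRegular m (ModuleCat.of R0 (R0 ⧸ m)) hsupp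
    (ModuleCat.of R0 R0) hlt rs hmem hreg' i (by rw [hlen]; exact hi')

end Pool.Agent.H66DE
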